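import Pool.Agent.L0h7.UL.Stm

/-! # Limits of marked groups: module LIM -/

set_option autoImplicit false

open Filter Topology

namespace Pool.Agent.L0h7.UL

open H61R3NG

theorem nm_el {G : Type} [Group G] {n : ℕ} (t : Fin n → G) (a : Fin n → ℂ) :
    nm (el t a) ≤ ∑ i, ‖a i‖ := by
  classical
  have h1 : ∀ x, (el t a).coeff x = ∑ i, if t i = x then a i else 0 := by
    intro x
    unfold el
    rw [MonoidAlgebra.coeff_sum, Finsupp.finsetSum_apply]
    refine Finset.sum_congr rfl fun i _ => ?_
    rw [MonoidAlgebra.coeff_single, Finsupp.single_apply]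
  unfold nm
  calc ∑ x ∈ (el t a).coeff.support, ‖(el t a).coeff x‖
      ≤ ∑ x ∈ (el t a).coeff.support, ∑ i, if t i = x then ‖a i‖ else 0 := by
        refine Finset.sum_le_sum fun x _ => ?_
        rw [h1]
        refine (norm_sum_le _ _).trans (Finset.sum_le_sum fun i _ => ?_)
        split_ifs <;> simp
    _ = ∑ i, ∑ x ∈ (el t a).coeff.support, if t i = x then ‖a i‖ else 0 := Finset.sum_comm
    _ ≤ ∑ i, ‖a i‖ := by
        refine Finset.sum_le_sum fun i _ => ?_
        rw [Finset.sum_ite_eq]
        split_ifs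
        · exact le_rfl
        · exact norm_nonneg _

theorem t_LIM (hSIG : S_SIG) (hFORM : S_FORM) : S_LIM := by
  classical
  intro n u G _ t a G' _ t' a' B hB ha hw ε hε
  have hB' : ∀ i, ‖a' i‖ ≤ B := fun i =>
    le_of_tendsto (ha i).norm (Eventually.of_forall fun k => hB k i)
  set R : ℝ := max 1 ((n * B) ^ 2) with hR
  have hR0 : 0 < R := lt_of_lt_of_le one_pos (le_max_left _ _)
  have hnm : ∀ {H : Type} [Group H] (s : Fin n → H) (b : Fin n → ℂ), (∀ i, ‖b i‖ ≤ B) →
      nm (el s b) ^ 2 ≤ R := by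
    intro H _ s b hb
    have h0 : 0 ≤ nm (el s b) := Finset.sum_nonneg fun _ _ => norm_nonneg _
    have h1 : nm (el s b) ≤ n * B := by
      refine (nm_el s b).trans ((Finset.sum_le_sum fun i _ => hb i).trans ?_)
      simp
    exact (pow_le_pow_left₀ h0 h1 2).trans (le_max_right _ _)
  have key : ∀ N : ℕ, 0 < N → ε ≤ sg R N (el t' a') := by
    intro N hN
    obtain ⟨W, c, hc, hform⟩ := hFORM n R N
    have hlim : Tendsto (fun k => sg R N (el (t k) (a k))) u (𝓝 (sg R N (el t' a'))) := by
      simp_rw [hform]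
      refine tendsto_finsetSum _ fun w _ => ?_
      have hap : Tendsto a u (𝓝 a') := tendsto_pi_nhds.2 ha
      by_cases h : FreeGroup.lift t' w = 1
      · rw [if_pos h]
        refine Tendsto.congr' ?_ (((hc w).tendsto a').comp hap)
        filter_upwards [(hw w).1 h] with k hk
        rw [if_pos hk]
        rfl
      · rw [if_neg h]
        have h1 : ¬ ∀ᶠ k in (u : Filter ℕ), FreeGroup.lift (t k) w = 1 := fun h1 => h ((hw w).2 h1)
        rw [← Ultrafilter.eventually_not] at h1
        refine Tendsto.congr' ?_ tendsto_const_nhds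
        filter_upwards [h1] with k hk
        rw [if_neg hk]
    refine ge_of_tendsto hlim ?_
    filter_upwards [hε] with k hk
    exact hk.trans ((hSIG (G k) _ R hR0 (hnm (t k) (a k) (hB k))).1 N hN)
  refine ge_of_tendsto (hSIG G' _ R hR0 (hnm t' a' hB')).2 ?_
  filter_upwards [eventually_gt_atTop 0] with N hN
  exact key N hN

end Pool.Agent.L0h7.UL
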